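import Pool.Agent.Q74.BT.Stm

/-! # Project BT, job Pin: when have at most `k` forms merged? -/

set_option autoImplicit false

namespace Pool.Agent.Q16.BT

open Finset
open Pool.Agent.Q158.Pair (T surv nc nc_nonneg Co)
open Pool.Agent.Q74.AR (oc ps xs ps_pair qq be surv_main qq_main lim lim_erf)
open Pool.Agent.Q74.KP (EE Erf Pe EE_mono EE_add EE_sub EE_sum EE_aff EE_const three_odd lv lv_le_nc lv_per lv_mean
  Co_ps oc_add)
open Pool.Agent.Q74.BL (nx nc_per' EE_nc)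
open Pool.Agent.Q74.BT

/-- the state of a pair of forms -/
def sP (z z' : ℕ × ℤ) : ℕ × ℤ := (z'.1 - z.1, z'.2 - 3 ^ (z'.1 - z.1) * z.2)

/-- the value of a form -/
def yP (z : ℕ × ℤ) (N : ℤ) : ℤ := 3 ^ z.1 * N + z.2

/-- the level of a form after `s` steps -/
def lP (z : ℕ × ℤ) (s : ℕ) (N : ℤ) : ℤ := z.1 + oc s (yP z N)

theorem sP_eq {z z' : ℕ × ℤ} (h : z.1 ≤ z'.1) (N : ℤ) :
    3 ^ (sP z z').1 * yP z N + (sP z z').2 = yP z' N := by
  unfold sP yP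
  have : (3 : ℤ) ^ z'.1 = 3 ^ (z'.1 - z.1) * 3 ^ z.1 := by rw [← pow_add, Nat.sub_add_cancel h]
  simp only
  rw [this]
  ring

theorem ps_lP {z z' : ℕ × ℤ} (h : z.1 ≤ z'.1) (s : ℕ) (N : ℤ) :
    ((ps s (sP z z') (yP z N)).1 : ℤ) = |lP z' s N - lP z s N| := by
  have h1 := ps_pair s (sP z z') (yP z N)
  rw [sP_eq h] at h1
  have h2 : (((sP z z').1 : ℕ) : ℤ) = z'.1 - z.1 := by
    show ((z'.1 - z.1 : ℕ) : ℤ) = _
    omega
  have h3 := Int.natCast_nonneg (ps s (sP z z') (yP z N)).1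
  unfold lP
  rcases h1 with ⟨_, _, h1⟩ | ⟨_, _, h1⟩
  · rw [h2] at h1
    rw [h1] at h3 ⊢
    rw [abs_of_nonneg (by linarith)]
    ring
  · rw [h2] at h1
    rw [h1] at h3 ⊢
    rw [abs_of_nonpos (by linarith)]
    ring

/-- forms that have met are equal -/
theorem nx_of_Co {z z' : ℕ × ℤ} (h : z.1 ≤ z'.1) (r : ℕ) (N : ℤ)
    (hC : Co r (sP z z') (yP z N)) : nx r N z = nx r N z' := by
  rw [Co_ps] at hC
  have h1 := ps_pair r (sP z z') (yP z N)
  rw [sP_eq h, hC] at h1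
  have h2 : (((sP z z').1 : ℕ) : ℤ) = z'.1 - z.1 := by
    show ((z'.1 - z.1 : ℕ) : ℤ) = _
    omega
  rw [h2] at h1
  unfold nx
  show (z.1 + oc r (yP z N), T^[r] (yP z N)) = (z'.1 + oc r (yP z' N), T^[r] (yP z' N))
  rcases h1 with ⟨g1, g2, g3⟩ | ⟨g1, g2, g3⟩
  · simp only [pow_zero, one_mul, add_zero] at g2
    rw [g1] at g2
    rw [g2]
    congr 1
    push_cast at g3
    omega
  · simp only [pow_zero, one_mul, add_zero] at g2
    rw [g1] at g2
    rw [g2]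
    congr 1
    push_cast at g3
    omega

theorem nc_eq_zero {z z' : ℕ × ℤ} (h : z.1 ≤ z'.1) (r : ℕ) (N : ℤ)
    (hC : nc r (sP z z') (yP z N) = 0) : nx r N z = nx r N z' := by
  apply nx_of_Co h
  by_contra h2
  unfold nc at hC
  rw [if_neg h2] at hC
  exact one_ne_zero hC

theorem nc_cases (r : ℕ) (z : ℕ × ℤ) (x : ℤ) : nc r z x = 0 ∨ nc r z x = 1 := by
  unfold nc
  split_ifs
  · left; rfl
  · right; rfl

theorem lv_cases (r : ℕ) (z : ℕ × ℤ) (x : ℤ) : lv r z x = 0 ∨ lv r z x = 1 := by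
  unfold lv
  split_ifs
  · right; rfl
  · left; rfl

theorem lv_one_ne {z z' : ℕ × ℤ} (h : z.1 ≤ z'.1) (r : ℕ) (N : ℤ)
    (h1 : lv r (sP z z') (yP z N) ≠ 0) : ∀ s ≤ r, lP z s N ≠ lP z' s N := by
  unfold lv at h1
  have h2 : ∀ s ≤ r, (ps s (sP z z') (yP z N)).1 ≠ 0 := by
    by_contra h3
    rw [if_neg h3] at h1
    exact h1 rfl
  intro s hs h3
  apply h2 s hs
  have h4 := ps_lP h s N
  rw [h3, sub_self, abs_zero] at h4
  exact_mod_cast h4

theorem lv_of_ne {z z' : ℕ × ℤ} (h : z.1 ≤ z'.1) (r : ℕ) (N : ℤ)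
    (h1 : ∀ s ≤ r, lP z s N ≠ lP z' s N) : lv r (sP z z') (yP z N) = 1 := by
  unfold lv
  rw [if_pos]
  intro s hs h2
  apply h1 s hs
  have h4 := ps_lP h s N
  rw [h2] at h4
  have h5 : |lP z' s N - lP z s N| = 0 := by rw [← h4]; rfl
  rw [abs_eq_zero] at h5
  omega

theorem lP_succ (z : ℕ × ℤ) (s : ℕ) (N : ℤ) : lP z s N ≤ lP z (s + 1) N ∧ lP z (s + 1) N ≤ lP z s N + 1 := by
  unfold lP
  have h := oc_add s 1 (yP z N)
  rw [h]
  have h1 := Pool.Agent.Q74.AR.oc_le 1 (T^[s] (yP z N))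
  push_cast
  constructor
  · have : (0 : ℤ) ≤ oc 1 (T^[s] (yP z N)) := Int.natCast_nonneg _
    linarith
  · have : ((oc 1 (T^[s] (yP z N)) : ℕ) : ℤ) ≤ 1 := by exact_mod_cast h1
    linarith

theorem lP_zero (z : ℕ × ℤ) (N : ℤ) : lP z 0 N = z.1 := by
  unfold lP
  simp [oc]

/-- levels that are never equal stay ordered -/
theorem lP_lt {z z' : ℕ × ℤ} (h : z.1 ≤ z'.1) (r : ℕ) (N : ℤ)
    (h1 : ∀ s ≤ r, lP z s N ≠ lP z' s N) : ∀ s ≤ r, lP z s N < lP z' s N := by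
  intro s
  induction s with
  | zero =>
    intro hr
    have h2 := h1 0 hr
    rw [lP_zero, lP_zero] at h2 ⊢
    omega
  | succ s ih =>
    intro hr
    have h2 := h1 (s + 1) hr
    have h3 := ih (by omega)
    have h4 := lP_succ z s N
    have h5 := lP_succ z' s N
    omega

/-- the pointwise bound -/
theorem pin_pt (r : ℕ) (V : Finset (ℕ × ℤ)) {z₀ z₁ : ℕ × ℤ} (h1 : z₁ ∈ V)
    (hmin : ∀ z ∈ V, z₀.1 ≤ z.1) (hmax : ∀ z ∈ V, z.1 ≤ z₁.1) (N : ℤ) :
    Set.indicator {N : ℤ | 2 ≤ (V.image (nx r N)).card} (1 : ℤ → ℝ) N ≤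
      nc r (sP z₀ z₁) (yP z₀ N) +
      (∑ z ∈ V, (nc r (sP z₀ z) (yP z₀ N) - lv r (sP z₀ z) (yP z₀ N)) +
       ∑ z ∈ V, (nc r (sP z z₁) (yP z N) - lv r (sP z z₁) (yP z N))) := by
  have hn1 : ∀ z ∈ V, 0 ≤ nc r (sP z₀ z) (yP z₀ N) - lv r (sP z₀ z) (yP z₀ N) := fun z _ =>
    sub_nonneg.2 (lv_le_nc _ _ _)
  have hn2 : ∀ z ∈ V, 0 ≤ nc r (sP z z₁) (yP z N) - lv r (sP z z₁) (yP z N) := fun z _ =>
    sub_nonneg.2 (lv_le_nc _ _ _)
  have hs1 := sum_nonneg hn1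
  have hs2 := sum_nonneg hn2
  have hnc := nc_nonneg r (sP z₀ z₁) (yP z₀ N)
  by_cases hc : 2 ≤ (V.image (nx r N)).card
  swap
  · rw [Set.indicator_of_notMem (by exact hc)]
    linarith
  rw [Set.indicator_of_mem (by exact hc)]
  show (1 : ℝ) ≤ _
  by_contra hlt
  push Not at hlt
  -- the ends have met
  have hA : nc r (sP z₀ z₁) (yP z₀ N) = 0 := by
    rcases nc_cases r (sP z₀ z₁) (yP z₀ N) with h | h
    · exact h
    · exfalso; rw [h] at hlt; linarith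
  have hA' := nc_eq_zero (hmin z₁ h1) r N hA
  have hB : ∀ z ∈ V, nc r (sP z₀ z) (yP z₀ N) - lv r (sP z₀ z) (yP z₀ N) < 1 := by
    intro z hz
    have := single_le_sum hn1 hz
    linarith
  have hC : ∀ z ∈ V, nc r (sP z z₁) (yP z N) - lv r (sP z z₁) (yP z N) < 1 := by
    intro z hz
    have := single_le_sum hn2 hz
    linarith
  have hall : ∀ z ∈ V, nx r N z = nx r N z₀ := by
    intro z hz
    rcases nc_cases r (sP z₀ z) (yP z₀ N) with h | h
    · exact (nc_eq_zero (hmin z hz) r N h).symm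
    rcases nc_cases r (sP z z₁) (yP z N) with h' | h'
    · rw [nc_eq_zero (hmax z hz) r N h', hA']
    exfalso
    have g1 : lv r (sP z₀ z) (yP z₀ N) ≠ 0 := by
      intro h2
      have := hB z hz
      rw [h, h2] at this
      norm_num at this
    have g2 : lv r (sP z z₁) (yP z N) ≠ 0 := by
      intro h2
      have := hC z hz
      rw [h', h2] at this
      norm_num at this
    have k1 := lP_lt (hmin z hz) r N (lv_one_ne (hmin z hz) r N g1)
    have k2 := lP_lt (hmax z hz) r N (lv_one_ne (hmax z hz) r N g2)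
    have k3 := lv_of_ne (hmin z₁ h1) r N (fun s hs => by
      have := k1 s hs
      have := k2 s hs
      omega)
    have k4 := lv_le_nc r (sP z₀ z₁) (yP z₀ N)
    rw [k3, hA] at k4
    norm_num at k4
  have hcard : (V.image (nx r N)).card ≤ 1 := by
    rw [card_le_one]
    intro a ha b hb
    obtain ⟨z, hz, rfl⟩ := mem_image.1 ha
    obtain ⟨z', hz', rfl⟩ := mem_image.1 hb
    rw [hall z hz, hall z' hz']
  omega

theorem EE_nc' (r : ℕ) (z z' : ℕ × ℤ) : EE r (fun N => nc r (sP z z') (yP z N)) = surv r (sP z z') :=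
  EE_nc r (sP z z') z.1 z.2

theorem EE_lv' (r : ℕ) (z z' : ℕ × ℤ) : EE r (fun N => lv r (sP z z') (yP z N)) = qq r (sP z z') := by
  have h := EE_aff (lv_per r (sP z z')) (3 ^ z.1) (three_odd z.1) z.2
  rw [lv_mean r r le_rfl] at h
  exact h

theorem Erf_mono {x y : ℝ} (h : x ≤ y) : Erf x ≤ Erf y := by
  unfold Erf
  apply mul_le_mul_of_nonneg_left _ (by positivity)
  have hi : ∀ a b : ℝ, IntervalIntegrable (fun y : ℝ => Real.exp (-y ^ 2)) MeasureTheory.volume a b := by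
    intro a b
    apply Continuous.intervalIntegrable
    fun_prop
  rw [← intervalIntegral.integral_add_adjacent_intervals (hi 0 x) (hi x y)]
  have : 0 ≤ ∫ t in x..y, Real.exp (-t ^ 2) :=
    intervalIntegral.integral_nonneg h fun t _ => (Real.exp_pos _).le
  linarith

theorem Erf_nonneg {x : ℝ} (h : 0 ≤ x) : 0 ≤ Erf x := by
  have h1 := Erf_mono h
  have h2 : Erf 0 = 0 := by
    unfold Erf
    simp
  rwa [h2] at h1

theorem pin : S_Pin := by
  intro k ε hε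
  set ε' : ℝ := ε / (4 * k + 1) with hε'
  have hk : (0 : ℝ) < 4 * k + 1 := by positivity
  have hε'0 : 0 < ε' := div_pos hε hk
  have hkε : ε' * (4 * k + 1) = ε := div_mul_cancel₀ _ hk.ne'
  obtain ⟨t₂, ht₂, hqq⟩ := qq_main hε'0
  obtain ⟨δ, hδ, t₃, ht₃, hsurv⟩ := surv_main hε'0
  refine ⟨δ, hδ, t₂ + t₃, fun r hr V hV hb R hR hlev => ?_⟩
  rcases V.eq_empty_or_nonempty with rfl | hne
  · have h1 : EE r (fun N => Set.indicator {N : ℤ | 2 ≤ ((∅ : Finset (ℕ × ℤ)).image (nx r N)).card} (1 : ℤ → ℝ) N) = 0 := by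
      have h2 : ∀ N : ℤ, Set.indicator {N : ℤ | 2 ≤ ((∅ : Finset (ℕ × ℤ)).image (nx r N)).card} (1 : ℤ → ℝ) N = 0 := by
        intro N
        rw [Set.indicator_of_notMem]
        simp
      simp only [h2]
      exact EE_const r 0
    rw [h1]
    have := Erf_nonneg (div_nonneg hR (Real.sqrt_nonneg (r : ℝ)))
    linarith
  obtain ⟨z₀, h0, hmin⟩ := exists_min_image V (fun z => z.1) hne
  obtain ⟨z₁, h1, hmax⟩ := exists_max_image V (fun z => z.1) hne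
  have hbe : ∀ z ∈ V, ∀ z' ∈ V, z.1 ≤ z'.1 → be (sP z z') ≤ Real.exp (δ * r) := by
    intro z hz z' hz' hzz
    unfold be sP
    simp only
    rw [div_le_iff₀ (by positivity), mul_comm (Real.exp _)]
    have := hb z hz z' hz' hzz
    push_cast
    exact this
  have hdiff : ∀ z ∈ V, ∀ z' ∈ V, z.1 ≤ z'.1 → surv r (sP z z') - qq r (sP z z') ≤ 2 * ε' := by
    intro z hz z' hz' hzz
    have i1 := (abs_le.1 (hsurv r (by omega) (sP z z') (hbe z hz z' hz' hzz))).2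
    have i2 := (abs_le.1 (hqq r (by omega) (sP z z'))).1
    linarith
  refine (EE_mono r (fun N => pin_pt r V h1 hmin hmax N)).trans ?_
  rw [EE_add, EE_add, EE_sum, EE_sum, EE_nc']
  have h2 : ∀ z ∈ V, EE r (fun N => nc r (sP z₀ z) (yP z₀ N) - lv r (sP z₀ z) (yP z₀ N)) ≤ 2 * ε' := by
    intro z hz
    rw [EE_sub, EE_nc', EE_lv']
    exact hdiff z₀ h0 z hz (hmin z hz)
  have h3 : ∀ z ∈ V, EE r (fun N => nc r (sP z z₁) (yP z N) - lv r (sP z z₁) (yP z N)) ≤ 2 * ε' := by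
    intro z hz
    rw [EE_sub, EE_nc', EE_lv']
    exact hdiff z hz z₁ h1 (hmax z hz)
  have h4 := sum_le_card_nsmul _ _ _ h2
  have h5 := sum_le_card_nsmul _ _ _ h3
  rw [nsmul_eq_mul] at h4 h5
  have hVk : (V.card : ℝ) ≤ k := by exact_mod_cast hV
  have h6 : (V.card : ℝ) * (2 * ε') ≤ k * (2 * ε') := mul_le_mul_of_nonneg_right hVk (by positivity)
  have i1 := (abs_le.1 (hsurv r (by omega) (sP z₀ z₁) (hbe z₀ h0 z₁ h1 (hmin z₁ h1)))).2
  have h7 : lim r (sP z₀ z₁).1 ≤ Erf (R / √r) := by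
    have e : lim r (sP z₀ z₁).1 = Erf (((sP z₀ z₁).1 : ℕ) / √(r : ℝ)) := lim_erf r (sP z₀ z₁).1
    rw [e]
    apply Erf_mono
    apply div_le_div_of_nonneg_right _ (Real.sqrt_nonneg _)
    have h8 := hlev z₀ h0 z₁ h1
    have h9 : (((sP z₀ z₁).1 : ℕ) : ℝ) = z₁.1 - z₀.1 := by
      show ((z₁.1 - z₀.1 : ℕ) : ℝ) = _
      rw [Nat.cast_sub (hmin z₁ h1)]
    rw [h9]
    exact h8
  linarith

end Pool.Agent.Q16.BT
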